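import Pool.Agent.Helper39.KZ.Av

/-! # FAB: the Faber polynomials are a basis -/

set_option autoImplicit false

open Metric Set Polynomial

namespace KZ

theorem fab_natDegree (g : ℂ → ℂ) (r : ℝ) (k : ℕ) : (fab g r k).natDegree ≤ k := by
  refine natDegree_sum_le_of_forall_le _ _ fun j hj => ?_
  refine (natDegree_C_mul_X_pow_le _ _).trans ?_
  exact Nat.lt_succ_iff.mp (Finset.mem_range.mp hj)

theorem fab_coeff (g : ℂ → ℂ) (r : ℝ) (k : ℕ) :
    (fab g r k).coeff k = av r (fun s => s⁻¹ ^ k * (tau g s * g s ^ k)) := by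
  rw [fab, finsetSum_coeff]
  rw [Finset.sum_eq_single k]
  · rw [coeff_C_mul_X_pow, if_pos rfl]
  · intro j _ hj
    rw [coeff_C_mul_X_pow, if_neg (Ne.symm hj)]
  · intro h
    exact absurd (Finset.mem_range.mpr (Nat.lt_succ_self k)) h

/-- polynomials `f k` of degree exactly `k` generate -/
theorem basis_of_degree (f : ℕ → ℂ[X]) (hd : ∀ k, (f k).natDegree ≤ k)
    (hc : ∀ k, (f k).coeff k ≠ 0) (n : ℕ) :
    ∀ q : ℂ[X], q.natDegree ≤ n →
      ∃ c : ℕ → ℂ, q = ∑ k ∈ Finset.range (n + 1), C (c k) * f k := by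
  induction n with
  | zero =>
    intro q hq
    refine ⟨fun _ => q.coeff 0 / (f 0).coeff 0, ?_⟩
    rw [Finset.sum_range_one]
    have h1 : q = C (q.coeff 0) := eq_C_of_natDegree_le_zero hq
    have h2 : f 0 = C ((f 0).coeff 0) := eq_C_of_natDegree_le_zero (hd 0)
    conv_rhs => rw [h2]
    rw [coeff_C_zero, ← C_mul, div_mul_cancel₀ _ (hc 0)]
    exact h1
  | succ n ih =>
    intro q hq
    set a : ℂ := q.coeff (n + 1) / (f (n + 1)).coeff (n + 1) with ha
    have h1 : (q - C a * f (n + 1)).natDegree ≤ n := by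
      rw [natDegree_le_iff_coeff_eq_zero]
      intro m hm
      rw [coeff_sub, coeff_C_mul]
      rcases Nat.lt_or_ge (n + 1) m with h | h
      · rw [coeff_eq_zero_of_natDegree_lt (lt_of_le_of_lt hq h),
          coeff_eq_zero_of_natDegree_lt (lt_of_le_of_lt (hd _) h), mul_zero, sub_zero]
      · have : m = n + 1 := by omega
        subst this
        rw [ha, div_mul_cancel₀ _ (hc _), sub_self]
    obtain ⟨c, hcq⟩ := ih _ h1
    refine ⟨fun k => if k = n + 1 then a else c k, ?_⟩
    rw [Finset.sum_range_succ]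
    simp only [if_true]
    have h2 : ∑ k ∈ Finset.range (n + 1), C (if k = n + 1 then a else c k) * f k =
        ∑ k ∈ Finset.range (n + 1), C (c k) * f k := by
      refine Finset.sum_congr rfl fun k hk => ?_
      rw [if_neg (Nat.ne_of_lt (Finset.mem_range.mp hk))]
    rw [h2, ← hcq]
    ring

theorem st_FAB (hTAU : ST_TAU) : ST_FAB := by
  intro K g hK hE r hr hr1
  obtain ⟨htd, hdd, ht0, hdn, hmul, hgn, htn⟩ := hTAU K g hK hE
  have hlead : ∀ k, av r (fun s => s⁻¹ ^ k * (tau g s * g s ^ k)) = dslope g 0 0 ^ k := by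
    intro k
    have h1 : av r (fun s => s⁻¹ ^ k * (tau g s * g s ^ k)) =
        av r (fun s => tau g s * dslope g 0 s ^ k) := by
      refine av_congr hr fun s hs => ?_
      have hs0 := sph_ne hr hs
      have h2 : s⁻¹ ^ k * s ^ k = 1 := by rw [← mul_pow, inv_mul_cancel₀ hs0, one_pow]
      rw [hmul s, mul_pow]
      calc s⁻¹ ^ k * (tau g s * (s ^ k * dslope g 0 s ^ k))
          = (s⁻¹ ^ k * s ^ k) * (tau g s * dslope g 0 s ^ k) := by ring
        _ = _ := by rw [h2, one_mul]
    rw [h1, av_an hr hr1 (u := fun s => tau g s * dslope g 0 s ^ k) (htd.mul (hdd.pow k)),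
      ht0, one_mul]
  refine ⟨?_, ?_⟩
  · rw [fab, Finset.sum_range_one, pow_zero, mul_one]
    have := hlead 0
    rw [pow_zero] at this
    rw [this, C_1]
  · intro q
    have hc : ∀ k, (fab g r k).coeff k ≠ 0 := by
      intro k
      rw [fab_coeff, hlead]
      exact pow_ne_zero _ (hdn 0 (mem_ball_self one_pos))
    obtain ⟨c, hcq⟩ := basis_of_degree (fab g r) (fab_natDegree g r) hc q.natDegree q le_rfl
    exact ⟨q.natDegree, c, hcq⟩

end KZ
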